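import Pool.Agent.Helper24.KK.GoalsB

/-! Packet KK-TAI (helper22): a large quadratic form forces a large exponential trace. -/

set_option autoImplicit false

namespace Pool.Agent.Helper22.KK

open Pool.Agent.Helper24.KK
open Finset Matrix
open scoped ComplexOrder

theorem cm_herm {d : Type} [Fintype d] [DecidableEq d] (Z : d → d → ℝ) : (cm Z).IsHermitian := by
  ext i j
  simp only [cm, Matrix.conjTranspose_apply, Matrix.of_apply, Complex.star_def,
    Complex.conj_ofReal]
  congr 1
  ring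

theorem quad {d : Type} [Fintype d] [DecidableEq d] (Z : d → d → ℝ) (t : ℝ) (w : d → ℝ) :
    (star (fun i => (w i : ℂ)) ⬝ᵥ ((t • (1 : Matrix d d ℂ) - cm Z) *ᵥ (fun i => (w i : ℂ)))).re
      = t * ∑ i, w i ^ 2 - ∑ i, ∑ j, Z i j * (w i * w j) := by
  have h1 : ∀ i, ((t • (1 : Matrix d d ℂ) - cm Z) *ᵥ (fun i => (w i : ℂ))) i
      = ((t * w i - ∑ j, (Z i j + Z j i) / 2 * w j : ℝ) : ℂ) := by
    intro i
    rw [Matrix.sub_mulVec, Matrix.smul_mulVec, Matrix.one_mulVec]
    simp only [Pi.sub_apply, Pi.smul_apply, Matrix.mulVec, dotProduct, cm, Matrix.of_apply]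
    push_cast
    simp
  have h2 : (star (fun i => (w i : ℂ)) ⬝ᵥ
      ((t • (1 : Matrix d d ℂ) - cm Z) *ᵥ (fun i => (w i : ℂ))))
      = ((∑ i, w i * (t * w i - ∑ j, (Z i j + Z j i) / 2 * w j) : ℝ) : ℂ) := by
    simp only [dotProduct]
    push_cast
    refine Finset.sum_congr rfl fun i _ => ?_
    rw [h1 i]
    simp only [Pi.star_apply, Complex.star_def, Complex.conj_ofReal]
    push_cast
    ring
  rw [h2, Complex.ofReal_re]
  have h3 : ∑ i, ∑ j, Z j i * (w i * w j) = ∑ i, ∑ j, Z i j * (w i * w j) := by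
    rw [Finset.sum_comm]
    refine Finset.sum_congr rfl fun i _ => Finset.sum_congr rfl fun j _ => ?_
    ring
  have h4 : ∑ i, w i * (t * w i - ∑ j, (Z i j + Z j i) / 2 * w j)
      = t * ∑ i, w i ^ 2 - (1 / 2) * (∑ i, ∑ j, Z i j * (w i * w j)
        + ∑ i, ∑ j, Z j i * (w i * w j)) := by
    rw [← Finset.sum_add_distrib, Finset.mul_sum, Finset.mul_sum, ← Finset.sum_sub_distrib]
    refine Finset.sum_congr rfl fun i _ => ?_
    rw [← Finset.sum_add_distrib, Finset.mul_sum, mul_sub, Finset.mul_sum]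
    congr 1
    · ring
    · refine Finset.sum_congr rfl fun j _ => ?_
      ring
  rw [h4, h3]
  ring

theorem tai : TAI := by
  intro d _ _ Z θ t w hθ hw
  have hH := cm_herm Z
  rw [Pool.Agent.Helper15.An.trace_exp_smul hH θ]
  by_cases hall : ∀ i, hH.eigenvalues i ≤ t
  · exfalso
    have hp := Pool.Agent.Helper15.An.posSemidef_of_eigenvalues_le hH t hall
    have h0 := hp.dotProduct_mulVec_nonneg (fun i => (w i : ℂ))
    have h1 := (Complex.le_def.1 h0).1
    rw [quad] at h1
    simp only [Complex.zero_re] at h1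
    linarith
  · push Not at hall
    obtain ⟨i, hi⟩ := hall
    calc Real.exp (θ * t) ≤ Real.exp (θ * hH.eigenvalues i) :=
          Real.exp_le_exp.2 (mul_le_mul_of_nonneg_left hi.le hθ)
      _ ≤ ∑ i, Real.exp (θ * hH.eigenvalues i) :=
          Finset.single_le_sum (f := fun i => Real.exp (θ * hH.eigenvalues i))
            (fun i _ => (Real.exp_pos _).le) (Finset.mem_univ i)

end Pool.Agent.Helper22.KK
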